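import Pool.Agent.H.MP_0d0865_co.TF.Defs

/-!
# TF/Back: from embeddings to permutations, with multiplicity

As `Dec.toP3` in H/Tc26/Conv.lean. The windows have three different elements because all cycles have length at least 3.
-/

set_option autoImplicit false

namespace Pool.Agent.H.MP_0d0865_co.TF

open Finset Equiv Pool.Agent.H.Tc26 Pool.Agent.H.Tc55

theorem DecomposesL.toDL {lam n m : ℕ} {l : Fin m → ℕ} (hl : ∀ i, 3 ≤ l i)
    (hs : ∑ i, l i = n) (h : DecomposesL lam 3 n l) :
    DL lam (fun s : Finset (Fin n) => s.card = 3) (fam l) := by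
  have : ∀ i, NeZero (l i) := fun i => ⟨by have := hl i; omega⟩
  obtain ⟨r, f, hf⟩ := h
  let e : Fin r → ((Σ i : Fin m, ZMod (l i)) ≃ Fin n) := fun j =>
    Equiv.ofBijective (f j) ((Fintype.bijective_iff_injective_and_card _).2
      ⟨(f j).injective, by
        rw [Fintype.card_sigma, Fintype.card_fin, ← hs]
        exact Finset.sum_congr rfl fun i _ => ZMod.card (l i)⟩)
  have he : ∀ j q, e j q = f j q := fun j q => rfl
  have hsh : ∀ j i x, (e j).permCongr (shift l) (e j ⟨i, x⟩) = e j ⟨i, x + 1⟩ := by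
    intro j i x
    rw [Equiv.permCongr_apply, Equiv.symm_apply_apply]
    rfl
  refine ⟨Fin r, inferInstance, fun j => (e j).permCongr (shift l), ?_, ?_, ?_⟩
  · intro j
    exact ⟨Fin m, inferInstance, l, e j, rfl, hsh j⟩
  · intro j v
    obtain ⟨⟨i, x⟩, rfl⟩ := (e j).surjective v
    simp only [hsh]
    have h1 : (1 : ZMod (l i)) ≠ 0 := by
      intro h
      have h2 : ((1 : ℕ) : ZMod (l i)) = 0 := by rw [Nat.cast_one]; exact h
      rw [ZMod.natCast_eq_zero_iff] at h2
      have := Nat.le_of_dvd one_pos h2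
      have := hl i
      omega
    have h2 : (1 : ZMod (l i)) + 1 ≠ 0 := by
      intro h
      have h2 : ((2 : ℕ) : ZMod (l i)) = 0 := by
        rw [← h]; push_cast; ring
      rw [ZMod.natCast_eq_zero_iff] at h2
      have := Nat.le_of_dvd two_pos h2
      have := hl i
      omega
    have hne : ∀ y z : ZMod (l i), y ≠ z → e j ⟨i, y⟩ ≠ e j ⟨i, z⟩ := by
      intro y z hyz h
      have h3 := (e j).injective h
      simp only [Sigma.mk.injEq, heq_eq_eq, true_and] at h3
      exact hyz h3
    rw [Finset.card_eq_three]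
    refine ⟨_, _, _, hne _ _ ?_, hne _ _ ?_, hne _ _ ?_, rfl⟩
    · intro h
      exact h1 (by simpa using h.symm)
    · intro h
      rw [add_assoc] at h
      exact h2 (by simpa using h.symm)
    · intro h
      exact h1 (by simpa using h.symm)
  · intro s hsc
    rw [← hf s hsc]
    refine Nat.card_congr (Equiv.ofBijective (fun q => ⟨(q.1.1, (e q.1.1).symm q.1.2), ?_⟩) ⟨?_, ?_⟩)
    · have hq := q.2
      have hw := Conv_window (e q.1.1) _ (hsh q.1.1) ((e q.1.1).symm q.1.2)
      rw [Equiv.apply_symm_apply] at hw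
      exact hq.trans hw.symm
    · rintro ⟨⟨j, x⟩, hq⟩ ⟨⟨j', x'⟩, hq'⟩ h
      simp only [Subtype.mk.injEq, Prod.mk.injEq] at h
      obtain ⟨rfl, h2⟩ := h
      have := (e j).symm.injective h2
      subst this
      rfl
    · rintro ⟨⟨j, q⟩, hq⟩
      have hw := Conv_window (e j) _ (hsh j) q
      refine ⟨⟨(j, e j q), ?_⟩, ?_⟩
      · exact hq.trans hw
      · simp only [Subtype.mk.injEq, Prod.mk.injEq, true_and]
        exact (e j).symm_apply_apply q

end Pool.Agent.H.MP_0d0865_co.TF
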