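import Pool.Agent.H.MP_0d0865_co.TF.Defs

/-!
# TF/Bas: transport, disjoint union and repetition of decompositions with multiplicity

As `DS.congr`, `DS.union`, `DS.ext` in H/Tc55/Defs.lean (lines 90-160), with a bijection of the subtypes
(`Nat.card_congr`) instead of `∃!`. `union`: for `S s` the pairs of the second family never have the window `s`
(its windows have `S'`), so the subtype over `J ⊕ J'` is in bijection with that over `J`. `of_DS`: the family `J × Fin lam`,
`fun q => r q.1`; the subtype is in bijection with `Fin lam` (`∃!`).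
-/

set_option autoImplicit false

namespace Pool.Agent.H.MP_0d0865_co.TF

open Finset Equiv Pool.Agent.H.Tc26 Pool.Agent.H.Tc55

variable {lam : ℕ}

theorem DL.congr {V V' : Type} [DecidableEq V] [DecidableEq V'] {S : Finset V → Prop}
    {U : Multiset ℕ} (h : DL lam S U) (e : V ≃ V') :
    DL lam (fun s : Finset V' => S (s.map e.symm.toEmbedding)) U := by
  obtain ⟨J, _, r, h1, h2, h3⟩ := h
  have key : ∀ (j : J) (x : V'), ({x, e.permCongr (r j) x,
      e.permCongr (r j) (e.permCongr (r j) x)} : Finset V').map e.symm.toEmbedding =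
      {e.symm x, r j (e.symm x), r j (r j (e.symm x))} := by
    intro j x
    simp [Finset.map_insert, Equiv.permCongr_apply]
  refine ⟨J, inferInstance, fun j => e.permCongr (r j), fun j => (h1 j).conj e, ?_, ?_⟩
  · intro j v
    rw [key]
    exact h2 j _
  · intro s hs
    rw [← h3 _ hs]
    refine Nat.card_congr (Equiv.subtypeEquiv (Equiv.prodCongr (Equiv.refl J) e.symm) ?_)
    rintro ⟨j, x⟩
    have inj := Finset.map_injective e.symm.toEmbedding
    constructor
    · intro h
      have h' : s = {x, e.permCongr (r j) x, e.permCongr (r j) (e.permCongr (r j) x)} := h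
      show s.map e.symm.toEmbedding = {e.symm x, r j (e.symm x), r j (r j (e.symm x))}
      rw [h', key]
    · intro h
      have h' : s.map e.symm.toEmbedding = {e.symm x, r j (e.symm x), r j (r j (e.symm x))} := h
      show s = {x, e.permCongr (r j) x, e.permCongr (r j) (e.permCongr (r j) x)}
      apply inj
      rw [key]
      exact h'

theorem DL.union {V : Type} [DecidableEq V] {S S' : Finset V → Prop} {U : Multiset ℕ}
    (h : DL lam S U) (h' : DL lam S' U) (hd : ∀ s, S s → ¬ S' s) :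
    DL lam (fun s => S s ∨ S' s) U := by
  obtain ⟨J, _, r, h1, h2, h3⟩ := h
  obtain ⟨J', _, r', h1', h2', h3'⟩ := h'
  refine ⟨J ⊕ J', inferInstance, Sum.elim r r', ?_, ?_, ?_⟩
  · rintro (j | j)
    · exact h1 j
    · exact h1' j
  · rintro (j | j) v
    · exact Or.inl (h2 j v)
    · exact Or.inr (h2' j v)
  · rintro s (hs | hs)
    · rw [← h3 s hs]
      refine (Nat.card_eq_of_bijective
        (fun q : {q : J × V // s = {q.2, r q.1 q.2, r q.1 (r q.1 q.2)}} =>
          (⟨(Sum.inl q.1.1, q.1.2), q.2⟩ : {q : (J ⊕ J') × V // s = {q.2, Sum.elim r r' q.1 q.2,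
            Sum.elim r r' q.1 (Sum.elim r r' q.1 q.2)}})) ⟨?_, ?_⟩).symm
      · rintro ⟨⟨j, x⟩, hx⟩ ⟨⟨j', x'⟩, hx'⟩ h
        simp only [Subtype.mk.injEq, Prod.mk.injEq, Sum.inl.injEq] at h
        exact Subtype.ext (Prod.ext h.1 h.2)
      · rintro ⟨⟨j | j, x⟩, hx⟩
        · exact ⟨⟨(j, x), hx⟩, rfl⟩
        · exfalso
          refine hd s hs ?_
          have h4 := h2' j x
          have h5 : s = {x, r' j x, r' j (r' j x)} := hx
          rwa [← h5] at h4
    · rw [← h3' s hs]
      refine (Nat.card_eq_of_bijective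
        (fun q : {q : J' × V // s = {q.2, r' q.1 q.2, r' q.1 (r' q.1 q.2)}} =>
          (⟨(Sum.inr q.1.1, q.1.2), q.2⟩ : {q : (J ⊕ J') × V // s = {q.2, Sum.elim r r' q.1 q.2,
            Sum.elim r r' q.1 (Sum.elim r r' q.1 q.2)}})) ⟨?_, ?_⟩).symm
      · rintro ⟨⟨j, x⟩, hx⟩ ⟨⟨j', x'⟩, hx'⟩ h
        simp only [Subtype.mk.injEq, Prod.mk.injEq, Sum.inr.injEq] at h
        exact Subtype.ext (Prod.ext h.1 h.2)
      · rintro ⟨⟨j | j, x⟩, hx⟩
        · exfalso
          refine hd s ?_ hs
          have h4 := h2 j x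
          have h5 : s = {x, r j x, r j (r j x)} := hx
          rwa [← h5] at h4
        · exact ⟨⟨(j, x), hx⟩, rfl⟩

theorem DL.ext {V : Type} [DecidableEq V] {S S' : Finset V → Prop} {U : Multiset ℕ}
    (h : DL lam S U) (h' : ∀ s, S' s ↔ S s) : DL lam S' U := by
  obtain ⟨J, _, r, h1, h2, h3⟩ := h
  exact ⟨J, inferInstance, r, h1, fun j v => (h' _).2 (h2 j v), fun s hs => h3 s ((h' s).1 hs)⟩

theorem DL.of_DS {V : Type} [DecidableEq V] {S : Finset V → Prop} {U : Multiset ℕ}
    (h : DS S U) : DL lam S U := by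
  obtain ⟨J, _, r, h1, h2, h3⟩ := h
  refine ⟨J × Fin lam, inferInstance, fun q => r q.1, fun q => h1 q.1, fun q v => h2 q.1 v, ?_⟩
  intro s hs
  obtain ⟨⟨j, x⟩, hx, hu⟩ := h3 s hs
  have h4 : Nat.card (Fin lam) = Nat.card {q : (J × Fin lam) × V //
      s = {q.2, r q.1.1 q.2, r q.1.1 (r q.1.1 q.2)}} := by
    refine Nat.card_eq_of_bijective (fun k : Fin lam =>
      (⟨((j, k), x), hx⟩ : {q : (J × Fin lam) × V //
        s = {q.2, r q.1.1 q.2, r q.1.1 (r q.1.1 q.2)}})) ⟨?_, ?_⟩
    · intro k k' h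
      simp only [Subtype.mk.injEq, Prod.mk.injEq, true_and, and_true] at h
      exact h
    · rintro ⟨⟨⟨j', k⟩, x'⟩, hx'⟩
      have h5 := hu (j', x') hx'
      simp only [Prod.mk.injEq] at h5
      refine ⟨k, ?_⟩
      apply Subtype.ext
      show ((j, k), x) = ((j', k), x')
      rw [h5.1, h5.2]
  rw [Nat.card_fin] at h4
  exact h4.symm

end Pool.Agent.H.MP_0d0865_co.TF
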