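import Pool.Agent.H.MP_0d0865_co.TF.Defs

/-!
# TF/Free: permutations all of whose cycles have length `c`

`IsType.of_reps` (H/Tc26/Lift.lean) with `I = Fin w`, `n = fun _ => c`, one representative of every cycle: the quotient of `V` by
the relation `∃ k : ℕ, y = (p ^ k) x` (`Equiv.Perm.SameCycle`; every class has exactly `c` elements `(p ^ k) x`, `k < c`), so the quotient
has `w` elements (`Fintype.card V = c * w`), `Fintype.equivFinOfCardEq`, `Quotient.out`.
-/

set_option autoImplicit false

namespace Pool.Agent.H.MP_0d0865_co.TF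

open Finset Equiv Pool.Agent.H.Tc26 Pool.Agent.H.Tc55

theorem type_free {V : Type} [Fintype V] (p : Perm V) {c w : ℕ} (hc : 0 < c)
    (hV : Fintype.card V = c * w) (hp : ∀ (x : V) (m : ℕ), (p ^ m) x = x ↔ c ∣ m) :
    IsType p (Multiset.replicate w c) := by
  classical
  have hpc : p ^ c = 1 := Perm.ext fun x => (hp x c).2 dvd_rfl
  have hz : ∀ i : ℤ, ∃ k : ℕ, k < c ∧ p ^ i = p ^ k := by
    intro i
    have hc0 : (c : ℤ) ≠ 0 := by exact_mod_cast hc.ne'
    have h1 : 0 ≤ i % c := Int.emod_nonneg i hc0
    have h2 : i % c < c := Int.emod_lt_of_pos i (by exact_mod_cast hc)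
    obtain ⟨k, hk⟩ := Int.eq_ofNat_of_zero_le h1
    refine ⟨k, by omega, ?_⟩
    have h3 : i = (k : ℤ) + c * (i / c) := by
      rw [← hk]
      exact (Int.emod_add_mul_ediv i c).symm
    rw [h3, zpow_add, zpow_mul, zpow_natCast, zpow_natCast, hpc, one_zpow, mul_one]
  have hsc : ∀ x y, Perm.SameCycle p x y → ∃ k : ℕ, k < c ∧ (p ^ k) x = y := by
    rintro x y ⟨i, hi⟩
    obtain ⟨k, hk, h⟩ := hz i
    exact ⟨k, hk, by rw [← h]; exact hi⟩
  let S : Setoid V := Perm.SameCycle.setoid p
  let Q : Type := Quotient S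
  have hout : ∀ x : V, Perm.SameCycle p (Quotient.mk S x).out x := fun x =>
    Quotient.exact (Quotient.out_eq (Quotient.mk S x))
  let F : Q × Fin c → V := fun q => (p ^ q.2.val) q.1.out
  have hF : Function.Bijective F := by
    constructor
    · rintro ⟨q, k⟩ ⟨q', k'⟩ h
      have h' : (p ^ k.val) q.out = (p ^ k'.val) q'.out := h
      have hqq : q = q' := by
        have h1 : Perm.SameCycle p q.out q'.out := by
          refine ⟨(k.val : ℤ) - (k'.val : ℤ), ?_⟩
          rw [sub_eq_neg_add, zpow_add, Perm.mul_apply, zpow_natCast, h', ← zpow_natCast,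
            ← Perm.mul_apply, ← zpow_add, neg_add_cancel, zpow_zero]
          rfl
        rw [← Quotient.out_eq q, ← Quotient.out_eq q']
        exact Quotient.sound h1
      subst hqq
      have hkk : k = k' := by
        have hgen : ∀ a b : ℕ, a ≤ b → a < c → b < c → (p ^ a) q.out = (p ^ b) q.out → a = b := by
          intro a b hab ha hb hh
          obtain ⟨d, rfl⟩ := Nat.exists_eq_add_of_le hab
          rw [pow_add, Perm.mul_apply] at hh
          have h2 := (p ^ a).injective hh
          have h3 := (hp _ d).1 h2.symm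
          have h4 : d = 0 := Nat.eq_zero_of_dvd_of_lt h3 (by omega)
          omega
        rcases le_total k.val k'.val with hle | hle
        · exact Fin.ext (hgen _ _ hle k.2 k'.2 h')
        · exact Fin.ext (hgen _ _ hle k'.2 k.2 h'.symm).symm
      subst hkk
      rfl
    · intro x
      obtain ⟨k, hk, h⟩ := hsc _ _ (hout x)
      exact ⟨(Quotient.mk S x, ⟨k, hk⟩), h⟩
  have : Fintype Q := Fintype.ofFinite Q
  have hcard : Fintype.card Q = w := by
    have h1 := Fintype.card_of_bijective hF
    rw [Fintype.card_prod, Fintype.card_fin, hV, mul_comm] at h1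
    exact Nat.eq_of_mul_eq_mul_left hc h1
  have hT := IsType.of_reps p (fun _ : Q => c) (fun _ => hc) (fun q => q.out)
    (fun q => (hp _ c).2 dvd_rfl)
    (fun x => by
      obtain ⟨k, -, h⟩ := hsc _ _ (hout x)
      exact ⟨Quotient.mk S x, k, h.symm⟩)
    (by
      rw [Finset.sum_const, Finset.card_univ, hcard, smul_eq_mul, hV, mul_comm])
  have hfam : fam (fun _ : Q => c) = Multiset.replicate w c := by
    unfold fam
    rw [Multiset.map_const', ← hcard]
    rfl
  rw [← hfam]
  exact hT

end Pool.Agent.H.MP_0d0865_co.TF
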