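import Pool.Agent.H.MP_0d0865_co.TF.Defs

/-!
# TF/Half: from a sharp family of permutations to multiplicity three

`C` with a fixed point free involution `i` such that `r (i a) = (r a)⁻¹`, and for distinct `x, y, z` exactly one `a` with
`r a x = y`, `r a y = z`. Every 3-set `s` is the window of exactly six pairs `(a, v)`: the map `(a, v) ↦ (v, r a v, r a (r a v))` is a bijection
from these pairs onto the six injective triples with values in `s` (the windows have three different elements because `U` has no part `≤ 2`: `h3`).
`(a, v) ↦ (i a, r a (r a v))` is a bijection between the pairs with window `s` and `a` in `J` and those with `a` not in `J`, where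
`J` contains exactly one of `a`, `i a` for every `a` (for instance `J = {a | f a < f (i a)}`, `f : C ≃ Fin (card C)`). So the family `J` has `3` pairs.
-/

set_option autoImplicit false

namespace Pool.Agent.H.MP_0d0865_co.TF

open Finset Equiv Pool.Agent.H.Tc26 Pool.Agent.H.Tc55

theorem half {V : Type} [Fintype V] [DecidableEq V] {C : Type} [Fintype C] (r : C → Perm V) (i : C → C)
    (hi : ∀ a, i (i a) = a) (hn : ∀ a, i a ≠ a) (hinv : ∀ a, r (i a) = (r a)⁻¹)
    (hs : ∀ x y z : V, x ≠ y → x ≠ z → y ≠ z → ∃! a, r a x = y ∧ r a y = z) {U : Multiset ℕ}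
    (hU : ∀ a, IsType (r a) U) (h3 : ∀ a x, r a x ≠ x ∧ r a (r a x) ≠ x) :
    DL 3 (fun s : Finset V => s.card = 3) U := by
  classical
  have hcard : ∀ a v, ({v, r a v, r a (r a v)} : Finset V).card = 3 := by
    intro a v
    rw [Finset.card_eq_three]
    exact ⟨v, r a v, r a (r a v), (h3 a v).1.symm, (h3 a v).2.symm, (h3 a (r a v)).1.symm, rfl⟩
  have hinvl : ∀ a x y, r a x = y → r (i a) y = x := by
    intro a x y h
    rw [hinv, Equiv.Perm.inv_eq_iff_eq]
    exact h.symm
  refine ⟨{a : C // Fintype.equivFin C a < Fintype.equivFin C (i a)}, inferInstance,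
    fun j => r j.1, fun j => hU j.1, fun j v => hcard j.1 v, ?_⟩
  intro s hs3
  have hmem : ∀ q : {q : {a : C // Fintype.equivFin C a < Fintype.equivFin C (i a)} × V //
      s = {q.2, r q.1.1 q.2, r q.1.1 (r q.1.1 q.2)}}, r q.1.1.1 q.1.2 ∈ s := by
    rintro ⟨⟨j, v⟩, hq⟩
    show r j.1 v ∈ s
    have hq' : s = {v, r j.1 v, r j.1 (r j.1 v)} := hq
    rw [hq']
    exact Finset.mem_insert_of_mem (Finset.mem_insert_self _ _)
  have hb : Function.Bijective (fun q : {q : {a : C // Fintype.equivFin C a <
      Fintype.equivFin C (i a)} × V // s = {q.2, r q.1.1 q.2, r q.1.1 (r q.1.1 q.2)}} =>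
      (⟨r q.1.1.1 q.1.2, hmem q⟩ : {y // y ∈ s})) := by
    constructor
    · rintro ⟨⟨⟨a, ha⟩, v⟩, h1⟩ ⟨⟨⟨a', ha'⟩, v'⟩, h2⟩ h
      have hy : r a v = r a' v' := congrArg Subtype.val h
      have h1' : s = {v, r a v, r a (r a v)} := h1
      have h2' : s = {v', r a' v', r a' (r a' v')} := h2
      rw [← hy] at h2'
      have h4 : v' ≠ r a v := by
        rw [hy]
        exact (h3 a' v').1.symm
      have h5 : r a' (r a v) ≠ r a v := (h3 a' _).1
      have h6 : r a' (r a v) ≠ v' := by
        rw [hy]
        exact (h3 a' v').2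
      have h7 : v' ∈ ({v, r a v, r a (r a v)} : Finset V) := by
        rw [← h1', h2']
        exact Finset.mem_insert_self _ _
      have h8 : r a' (r a v) ∈ ({v, r a v, r a (r a v)} : Finset V) := by
        rw [← h1', h2']
        exact Finset.mem_insert_of_mem (Finset.mem_insert_of_mem (Finset.mem_singleton_self _))
      rw [Finset.mem_insert, Finset.mem_insert, Finset.mem_singleton] at h7 h8
      have hu := hs v (r a v) (r a (r a v)) (h3 a v).1.symm (h3 a v).2.symm (h3 a _).1.symm
      rcases h7 with h7 | h7 | h7
      · rcases h8 with h8 | h8 | h8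
        · exact absurd (h8.trans h7.symm) h6
        · exact absurd h8 h5
        · have h9 : a = a' := hu.unique ⟨rfl, rfl⟩ ⟨(congrArg (r a') h7.symm).trans hy.symm, h8⟩
          subst h9
          subst h7
          rfl
      · exact absurd h7 h4
      · rcases h8 with h8 | h8 | h8
        · have h9 : a = i a' := hu.unique ⟨rfl, rfl⟩
            ⟨hinvl a' _ _ h8, (hinvl a' _ _ hy.symm).trans h7⟩
          rw [h9, hi] at ha
          exact absurd ha (lt_asymm ha')
        · exact absurd h8 h5
        · exact absurd (h8.trans h7.symm) h6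
    · rintro ⟨y, hy⟩
      have h4 : (s.erase y).card = 2 := by rw [Finset.card_erase_of_mem hy, hs3]
      obtain ⟨x, z, hxz, he⟩ := Finset.card_eq_two.1 h4
      have hx : x ∈ s.erase y := by
        rw [he]
        exact Finset.mem_insert_self _ _
      have hz : z ∈ s.erase y := by
        rw [he]
        exact Finset.mem_insert_of_mem (Finset.mem_singleton_self _)
      have hxy := Finset.ne_of_mem_erase hx
      have hzy := Finset.ne_of_mem_erase hz
      have hse : s = {x, y, z} := by
        rw [← Finset.insert_erase hy, he, Finset.insert_comm]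
      obtain ⟨a, ⟨ha1, ha2⟩, -⟩ := hs x y z hxy hxz hzy.symm
      by_cases hlt : Fintype.equivFin C a < Fintype.equivFin C (i a)
      · refine ⟨⟨(⟨a, hlt⟩, x), ?_⟩, Subtype.ext ha1⟩
        show s = {x, r a x, r a (r a x)}
        rw [ha1, ha2]
        exact hse
      · have hne : Fintype.equivFin C (i a) ≠ Fintype.equivFin C a := fun h =>
          hn a ((Fintype.equivFin C).injective h)
        have hlt' : Fintype.equivFin C (i a) < Fintype.equivFin C (i (i a)) := by
          rw [hi]
          exact lt_of_le_of_ne (not_lt.1 hlt) hne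
        have hb1 : r (i a) z = y := hinvl a y z ha2
        have hb2 : r (i a) y = x := hinvl a x y ha1
        refine ⟨⟨(⟨i a, hlt'⟩, z), ?_⟩, Subtype.ext hb1⟩
        show s = {z, r (i a) z, r (i a) (r (i a) z)}
        rw [hb1, hb2, hse]
        ext w
        simp only [Finset.mem_insert, Finset.mem_singleton]
        constructor
        · rintro (h | h | h)
          · exact Or.inr (Or.inr h)
          · exact Or.inr (Or.inl h)
          · exact Or.inl h
        · rintro (h | h | h)
          · exact Or.inr (Or.inr h)
          · exact Or.inr (Or.inl h)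
          · exact Or.inl h
  refine (Nat.card_congr (Equiv.ofBijective _ hb)).trans ?_
  rw [Nat.card_eq_fintype_card, Fintype.card_coe]
  exact hs3

end Pool.Agent.H.MP_0d0865_co.TF
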