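import Pool.Agent.H.MP_0d0865_co.TF.Sharp
import Pool.Agent.H.MP_0d0865_co.TF.Half
import Pool.Agent.H.MP_0d0865_co.TF.Free
import Pool.Agent.H.MP_0d0865_co.TF.Bas

/-!
# TF/Base3: the base decomposition with multiplicity three

`F = GaloisField p k` with `q` elements; `luc_exists`, `half` with `C = Cl t d`, `r = pm hd`, `i = opp`, `sharp`, `type_free`
(`card (Pt F) = q + 1`: `Projectivization.card_of_finrank_two`), `pm_pow` (with `m = 1, 2` for `h3`, `c ≥ 3`), and `DL.congr` along `Pt F ≃ Fin (q + 1)`.
-/

set_option autoImplicit false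

namespace Pool.Agent.H.MP_0d0865_co.TF

open Finset Equiv Pool.Agent.H.Tc26 Pool.Agent.H.Tc55

private theorem Base3_field (F : Type) [Field F] [Finite F] {q c w : ℕ} (hF : Nat.card F = q)
    (hc : 3 ≤ c) (hcw : c * w = q + 1) (V : Type) [Fintype V] [DecidableEq V]
    (hV : Fintype.card V = q + 1) :
    DL 3 (fun s : Finset V => s.card = 3) (Multiset.replicate w c) := by
  classical
  let _ : Fintype F := Fintype.ofFinite F
  have hF1 : Fintype.card F = q := by rw [← hF, Nat.card_eq_fintype_card]
  obtain ⟨t, d, ht, hd, hx, hm⟩ := luc_exists F hc (by rw [hF1]; exact hcw)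
  have hfin : Finite (Cl t d) := Finite.of_injective
    (fun A : Cl t d => ((A.1 : F × F →ₗ[F] F × F) : F × F → F × F))
    (fun A B h => Subtype.ext (DFunLike.coe_injective h))
  let _ : Fintype (Cl t d) := Fintype.ofFinite _
  have hPc : Nat.card (Pt F) = q + 1 := by
    rw [Projectivization.card_of_finrank_two F (F × F) (by simp), hF]
  have hPfin : Finite (Pt F) := Nat.finite_of_card_ne_zero (by rw [hPc]; exact Nat.succ_ne_zero q)
  let _ : Fintype (Pt F) := Fintype.ofFinite _
  have hPc1 : Fintype.card (Pt F) = q + 1 := by rw [← hPc, Nat.card_eq_fintype_card]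
  have hU : ∀ A : Cl t d, IsType (pm hd A) (Multiset.replicate w c) := fun A =>
    type_free (pm hd A) (by omega) (by rw [hPc1, hcw])
      fun P m => (pm_pow hd hx A P m).trans (hm m)
  have h3 : ∀ (A : Cl t d) (P : Pt F), pm hd A P ≠ P ∧ pm hd A (pm hd A P) ≠ P := by
    intro A P
    constructor
    · intro h
      have h1 := (hm 1).1 ((pm_pow hd hx A P 1).1 (by rw [pow_one]; exact h))
      have h2 := Nat.le_of_dvd one_pos h1
      omega
    · intro h
      have h1 := (hm 2).1 ((pm_pow hd hx A P 2).1 (by rw [pow_two]; exact h))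
      have h2 := Nat.le_of_dvd two_pos h1
      omega
  have h4 : DL 3 (fun s : Finset (Pt F) => s.card = 3) (Multiset.replicate w c) :=
    half (pm hd) opp opp_opp (opp_ne ht hd hx) (pm_opp hd) (sharp ht hd) hU h3
  have e : Pt F ≃ V := Fintype.equivOfCardEq (by rw [hPc1, hV])
  refine (h4.congr e).ext fun s => ?_
  rw [Finset.card_map]

theorem base3 {q c w : ℕ} (hq : IsPrimePow q) (hc : 3 ≤ c) (hcw : c * w = q + 1) (V : Type)
    [Fintype V] [DecidableEq V] (hV : Fintype.card V = q + 1) :
    DL 3 (fun s : Finset V => s.card = 3) (Multiset.replicate w c) := by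
  classical
  obtain ⟨p, k, hp, hk, hpk⟩ := (isPrimePow_nat_iff q).1 hq
  have : Fact p.Prime := ⟨hp⟩
  let F : Type := GaloisField p k
  let _ : Field F := inferInstanceAs (Field (GaloisField p k))
  have hF0 : Finite F := inferInstanceAs (Finite (GaloisField p k))
  exact Base3_field F (by rw [← hpk]; exact GaloisField.card p k hk.ne') hc hcw V hV

end Pool.Agent.H.MP_0d0865_co.TF
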