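import Pool.Agent.H.MP_0d0865_co.TF.Bas

/-!
# TF/Climb: the recursion over the levels, with multiplicity

As `Fin_step` and `climb` in H/Tc55/Fin.lean, with `DL` in place of `DS` (`DL.congr`, `DL.union`, `DL.ext`), and
`DL.of_DS (lev (Fin_dg ..))` for the part `PS`. (`Fin_hs_map`, `Fin_dg`, `lev` are used as they are.)
-/

set_option autoImplicit false

namespace Pool.Agent.H.MP_0d0865_co.TF

open Finset Equiv Pool.Agent.H.Tc26 Pool.Agent.H.Tc55

variable {lam : ℕ}

private theorem Climb_step {A : Type} [DecidableEq A] {T T' : Type} [DecidableEq T]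
    [DecidableEq T'] {M : Multiset ℕ} (e : T ≃ Bool × T') (h : DL lam (HS A T) M)
    (h' : DL lam (PS A T') M) : DL lam (HS (A × Bool) T') M := by
  let E : A × T ≃ (A × Bool) × T' :=
    ((Equiv.refl A).prodCongr e).trans (Equiv.prodAssoc A Bool T').symm
  have hE : ∀ x, (E.symm x).1 = (x.1).1 := fun x => rfl
  have h1 := h.congr E
  refine (h1.union h' ?_).ext ?_
  · intro s hs hs'
    rw [Fin_hs_map E Prod.fst hE] at hs
    exact hs'.2.2 hs.2
  · intro s
    rw [Fin_hs_map E Prod.fst hE]
    constructor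
    · intro hs
      by_cases h3 : Set.InjOn (fun x : (A × Bool) × T' => x.1.1) (s : Set ((A × Bool) × T'))
      · exact Or.inl ⟨hs.1, h3⟩
      · exact Or.inr ⟨hs.1, hs.2, h3⟩
    · rintro (hs | hs)
      · refine ⟨hs.1, fun x hx y hy hxy => hs.2 hx hy ?_⟩
        simp only [hxy]
      · exact ⟨hs.1, hs.2.1⟩

theorem climbL : ∀ (b : ℕ) {A : Type} [Fintype A] [DecidableEq A] (_ : 4 ∣ Fintype.card A)
    (_ : 0 < Fintype.card A) {U : Multiset ℕ} (_ : Bip U)
    (_ : U.sum * 2 = Fintype.card A * 2 ^ b)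
    (_ : DL lam (HS A (ZMod (2 ^ b))) (U.map (2 * ·))) (B : Type) [Fintype B] [DecidableEq B],
      Fintype.card B = Fintype.card A * 2 ^ b →
      DL lam (fun s : Finset B => s.card = 3) (U.map (2 * ·)) := by
  intro b
  induction b with
  | zero =>
    intro A _ _ h4 h0 U hU hs h B _ _ hB
    have : NeZero (2 ^ 0) := ⟨by positivity⟩
    have hc : Fintype.card (A × ZMod (2 ^ 0)) = Fintype.card B := by
      rw [Fintype.card_prod, ZMod.card, hB]
    refine (h.congr (Fintype.equivOfCardEq hc)).ext fun s => ?_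
    constructor
    · intro hs
      refine ⟨by rw [Finset.card_map]; exact hs, ?_⟩
      rintro ⟨x, u⟩ - ⟨y, v⟩ - hxy
      have huv : u = v := by
        have : Subsingleton (ZMod (2 ^ 0)) := by
          rw [← Fintype.card_le_one_iff_subsingleton, ZMod.card]; simp
        exact Subsingleton.elim _ _
      simp only at hxy
      rw [hxy, huv]
    · intro hs
      have h1 := hs.1
      rw [Finset.card_map] at h1
      exact h1
  | succ b ih =>
    intro A _ _ h4 h0 U hU hs h B _ _ hB
    have : NeZero (2 ^ b) := ⟨by positivity⟩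
    have : NeZero (2 ^ (b + 1)) := ⟨by positivity⟩
    have hsum : U.sum = Fintype.card A * 2 ^ b := by
      have : U.sum * 2 = Fintype.card A * 2 ^ b * 2 := by rw [hs]; ring
      omega
    have h1 : DL lam (PS A (ZMod (2 ^ b))) (U.map (2 * ·)) :=
      DL.of_DS (lev (Fin_dg h4 h0 hU b hsum))
    have hc : Fintype.card (ZMod (2 ^ (b + 1))) = Fintype.card (Bool × ZMod (2 ^ b)) := by
      rw [Fintype.card_prod, ZMod.card, ZMod.card, Fintype.card_bool]; ring
    have h2 := Climb_step (Fintype.equivOfCardEq hc) h h1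
    have hc2 : Fintype.card (A × Bool) = Fintype.card A * 2 := by simp
    exact ih (hc2 ▸ Dvd.dvd.mul_right h4 2) (by rw [hc2]; omega) hU
      (by rw [hs, hc2]; ring) h2 B (by rw [hB, hc2]; ring)

end Pool.Agent.H.MP_0d0865_co.TF
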