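import Pool.Agent.H.MP_0d0865_co.TF.Defs

/-!
# TF/ConvL: translation to embeddings

As `P3.toDec` in H/Tc26/Conv.lean: `E : J ≃ Fin (Fintype.card J)`, `e j` the models of `r j`; the map
`(i, q) ↦ (E.symm i, e (E.symm i) q)` is a bijection between the two subtypes (`Conv_window`).
-/

set_option autoImplicit false

namespace Pool.Agent.H.MP_0d0865_co.TF

open Finset Equiv Pool.Agent.H.Tc26 Pool.Agent.H.Tc55

variable {lam : ℕ}

theorem DL.toDec {n m : ℕ} {l : Fin m → ℕ}
    (h : DL lam (fun s : Finset (Fin n) => s.card = 3) (fam l)) : DecomposesL lam 3 n l := by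
  obtain ⟨J, _, r, h1, -, h2⟩ := h
  choose e he using fun j => (h1 j).exists_equiv l rfl
  let E : J ≃ Fin (Fintype.card J) := Fintype.equivFin J
  refine ⟨Fintype.card J, fun i => (e (E.symm i)).toEmbedding, ?_⟩
  intro s hs
  rw [← h2 s hs]
  let F : (Fin (Fintype.card J) × (Σ i : Fin m, ZMod (l i))) ≃ J × Fin n :=
    Equiv.prodShear E.symm fun i => e (E.symm i)
  refine Nat.card_congr (F.subtypeEquiv fun p => ?_)
  have hw := Conv_window (e (E.symm p.1)) (r (E.symm p.1)) (he (E.symm p.1)) p.2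
  exact iff_of_eq (congrArg (fun t => s = t) hw)

end Pool.Agent.H.MP_0d0865_co.TF
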