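import Pool.Agent.H.Tc55.Main

/-!
# MP_0d0865_co, folder TF: decompositions with multiplicity (helper65)

`DL lam S U`: the windows `{v, r v, r (r v)}` of a family of tight cycle factors (permutations) of type `U` all have the
property `S`, and every set with the property `S` is the window of exactly `lam` pairs `(j, v)`. `DS S U` of Tc55 is the case `lam = 1`.
-/

set_option autoImplicit false

namespace Pool.Agent.H.MP_0d0865_co.TF

open Finset Equiv Pool.Agent.H.Tc26 Pool.Agent.H.Tc55

/-- every set with property `S` is exactly `lam` times a window -/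
def DL (lam : ℕ) {V : Type} [DecidableEq V] (S : Finset V → Prop) (U : Multiset ℕ) : Prop :=
  ∃ (J : Type) (_ : Fintype J) (r : J → Perm V), (∀ j, IsType (r j) U) ∧
    (∀ j v, S {v, r j v, r j (r j v)}) ∧
    ∀ s, S s → Nat.card {q : J × V // s = {q.2, r q.1 q.2, r q.1 (r q.1 q.2)}} = lam

/-- the complete `k`-graph on `n` vertices with every edge of multiplicity `lam` decomposes into copies of the disjoint union
of tight cycles of lengths `ℓ i` -/
def DecomposesL (lam k n : ℕ) {m : ℕ} (ℓ : Fin m → ℕ) : Prop :=
  ∃ r : ℕ, ∃ φ : Fin r → ((Σ i : Fin m, ZMod (ℓ i)) ↪ Fin n),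
    ∀ s : Finset (Fin n), s.card = k →
      Nat.card {p : Fin r × (Σ i : Fin m, ZMod (ℓ i)) //
        s = (Finset.range k).image
          (fun j : ℕ => φ p.1 ⟨p.2.1, p.2.2 + (j : ZMod (ℓ p.2.1))⟩)} = lam

end Pool.Agent.H.MP_0d0865_co.TF
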