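import Pool.Agent.H.MP_0d0865_co.TF.Defs

/-!
# TF/Luc: the trace and the norm

`luc t d m`: `U_0 = 0`, `U_1 = 1`, `U_{m+2} = t U_{m+1} - d U_m`. `K` = extension of degree 2 of `F` (`FiniteField.Extension`, Mathlib
FieldTheory/Finite/Extension; `q = card F`, `card K = q²`), `γ` a generator of `Kˣ` (cyclic of order `q² - 1`), `z = γ ^ ((q + 1) / c)`,
`t = z + z^q`, `d = z^(q+1)` (in `F`: elements with `x^q = x`; or take trace and norm of the minimal polynomial). `z² = t z - d`,
`z^m = U_m z - d U_{m-1}` (in the form `z^(m+1) = U_(m+1) z - d U_m`), `z ∉ F`, so `U_m = 0` iff `z^m ∈ F` iff `z^(m (q-1)) = 1` iff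
`(q² - 1) ∣ m (q - 1) (q + 1) / c` iff `c ∣ m`. `t ≠ 0` because `U_2 = t` and `c ∤ 2`. `x² - t x + d` has no zero in `F` (the zeros in `K` are `z`, `z^q`).
-/

set_option autoImplicit false

namespace Pool.Agent.H.MP_0d0865_co.TF

/-- the Lucas sequence -/
def luc {F : Type} [Field F] (t d : F) : ℕ → F
  | 0 => 0
  | 1 => 1
  | (m + 2) => t * luc t d (m + 1) - d * luc t d m

private theorem fix_mem {F K : Type} [Field F] [Fintype F] [Field K] [Algebra F K] {x : K}
    (hx : x ^ Fintype.card F = x) : ∃ y : F, algebraMap F K y = x := by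
  classical
  have h0 : (Polynomial.X ^ Fintype.card F - Polynomial.X : Polynomial K) ≠ 0 :=
    FiniteField.X_pow_card_sub_X_ne_zero K Fintype.one_lt_card
  have h1 : Finset.univ.image (algebraMap F K) ⊆
      (Polynomial.X ^ Fintype.card F - Polynomial.X : Polynomial K).roots.toFinset := by
    intro z hz
    obtain ⟨y, _, rfl⟩ := Finset.mem_image.1 hz
    rw [Multiset.mem_toFinset, Polynomial.mem_roots h0, Polynomial.IsRoot.def, Polynomial.eval_sub,
      Polynomial.eval_pow, Polynomial.eval_X, ← map_pow, FiniteField.pow_card, sub_self]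
  have h2 : (Polynomial.X ^ Fintype.card F - Polynomial.X : Polynomial K).roots.toFinset.card ≤
      Fintype.card F := by
    refine (Multiset.toFinset_card_le _).trans ((Polynomial.card_roots' _).trans ?_)
    rw [FiniteField.X_pow_card_sub_X_natDegree_eq K Fintype.one_lt_card]
  have h3 : (Finset.univ.image (algebraMap F K)).card = Fintype.card F := by
    rw [Finset.card_image_of_injective _ (algebraMap F K).injective, Finset.card_univ]
  have h4 := Finset.eq_of_subset_of_card_le h1 (by rw [h3]; exact h2)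
  have h5 : x ∈ (Polynomial.X ^ Fintype.card F - Polynomial.X : Polynomial K).roots.toFinset := by
    rw [Multiset.mem_toFinset, Polynomial.mem_roots h0, Polynomial.IsRoot.def, Polynomial.eval_sub,
      Polynomial.eval_pow, Polynomial.eval_X, hx, sub_self]
  rw [← h4] at h5
  obtain ⟨y, _, hy⟩ := Finset.mem_image.1 h5
  exact ⟨y, hy⟩

private theorem ext_exists (F : Type) [Field F] [Fintype F] :
    ∃ (K : Type) (_ : Field K) (_ : Fintype K) (_ : Algebra F K),
      Fintype.card K = Fintype.card F ^ 2 := by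
  obtain ⟨p, hp⟩ := CharP.exists F
  have : Fact p.Prime := ⟨CharP.char_is_prime F p⟩
  have : NeZero (2 : ℕ) := ⟨two_ne_zero⟩
  refine ⟨FiniteField.Extension F p 2, inferInstance, Fintype.ofFinite _, inferInstance, ?_⟩
  rw [Fintype.card_eq_nat_card, Fintype.card_eq_nat_card, FiniteField.natCard_extension]

private theorem luc_core {F K : Type} [Field F] [Fintype F] [Field K] [Fintype K] [Algebra F K]
    (hK : Fintype.card K = Fintype.card F ^ 2) {c w : ℕ} (hc : 3 ≤ c)
    (hcw : c * w = Fintype.card F + 1) :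
    ∃ t d : F, t ≠ 0 ∧ d ≠ 0 ∧ (∀ x : F, x * x - t * x + d ≠ 0) ∧
      ∀ m, luc t d m = 0 ↔ c ∣ m := by
  classical
  have hq1 : 1 < Fintype.card F := Fintype.one_lt_card
  have hw : 0 < w := by
    rcases Nat.eq_zero_or_pos w with h | h
    · rw [h] at hcw; omega
    · exact h
  obtain ⟨γ, hγ⟩ := IsCyclic.exists_generator (α := Kˣ)
  have hord : orderOf γ = c * w * (Fintype.card F - 1) := by
    rw [orderOf_eq_card_of_forall_mem_zpowers hγ, Nat.card_eq_fintype_card, Fintype.card_units,
      hK, hcw]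
    have := Nat.sq_sub_sq (Fintype.card F) 1
    rw [one_pow] at this
    exact this
  have hfix : ∀ m : ℕ, ((γ ^ w) ^ m) ^ Fintype.card F = (γ ^ w) ^ m ↔ c ∣ m := by
    intro m
    have h1 : ((γ ^ w) ^ m) ^ Fintype.card F =
        (γ ^ w) ^ m * γ ^ (w * m * (Fintype.card F - 1)) := by
      rw [← pow_mul, ← pow_mul, ← pow_mul, ← pow_add]
      congr 1
      obtain ⟨r, hr⟩ : ∃ r, Fintype.card F = r + 1 := ⟨Fintype.card F - 1, by omega⟩
      rw [hr, Nat.add_sub_cancel]; ring
    rw [h1, mul_eq_left, ← orderOf_dvd_iff_pow_eq_one, hord]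
    have h2 : w * m * (Fintype.card F - 1) = m * (w * (Fintype.card F - 1)) := by ring
    rw [h2, mul_assoc]
    exact Nat.mul_dvd_mul_iff_right (Nat.mul_pos hw (by omega))
  obtain ⟨φ, hφ⟩ : ∃ φ : K →ₐ[F] K, ∀ x : K, φ x = x ^ Fintype.card F :=
    ⟨FiniteField.frobeniusAlgHom F K, fun x => rfl⟩
  have hφφ : ∀ x : K, φ (φ x) = x := by
    intro x
    rw [hφ, hφ, ← pow_mul, ← sq, ← hK]
    exact FiniteField.pow_card x
  have hφF : ∀ x : F, φ (algebraMap F K x) = algebraMap F K x := fun x => φ.commutes x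
  obtain ⟨z, hz0, hz⟩ : ∃ z : K, z ≠ 0 ∧ ∀ m : ℕ, φ (z ^ m) = z ^ m ↔ c ∣ m := by
    refine ⟨((γ ^ w : Kˣ) : K), Units.ne_zero _, fun m => ?_⟩
    rw [← hfix m, hφ, Units.ext_iff]
    simp only [Units.val_pow_eq_pow_val]
  have hmem : ∀ x : K, φ x = x → ∃ y : F, algebraMap F K y = x := fun x hx =>
    fix_mem (by rw [← hφ]; exact hx)
  obtain ⟨t, ht⟩ := hmem (z + φ z) (by rw [map_add, hφφ, add_comm])
  obtain ⟨d, hd⟩ := hmem (z * φ z) (by rw [map_mul, hφφ, mul_comm])
  have hzF : ∀ x : F, algebraMap F K x ≠ z := by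
    intro x hx
    have h1 := (hz 1).1 (by rw [pow_one, ← hx]; exact hφF x)
    have h2 := Nat.le_of_dvd one_pos h1
    omega
  have hrec : ∀ m, z ^ (m + 1) = algebraMap F K (luc t d (m + 1)) * z -
      algebraMap F K d * algebraMap F K (luc t d m) := by
    intro m
    induction m with
    | zero => simp [luc]
    | succ m ih =>
      rw [pow_succ, ih]
      have h1 : luc t d (m + 1 + 1) = t * luc t d (m + 1) - d * luc t d m := rfl
      rw [h1, map_sub, map_mul, map_mul, ht, hd]
      ring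
  have hU : ∀ m, luc t d m = 0 ↔ c ∣ m := by
    intro m
    cases m with
    | zero => simp [luc]
    | succ m =>
      rw [← hz (m + 1)]
      have h := hrec m
      constructor
      · intro h0
        rw [h, h0, map_zero, zero_mul, zero_sub, ← map_mul, ← map_neg]
        exact hφF _
      · intro h1
        by_contra h0
        rw [h] at h1
        rw [map_sub, map_mul, map_mul, hφF, hφF, hφF] at h1
        have h2 := sub_left_injective h1
        have h3 := mul_left_cancel₀ ((map_ne_zero _).2 h0) h2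
        obtain ⟨y, hy⟩ := hmem z h3
        exact hzF y hy
  refine ⟨t, d, ?_, ?_, ?_, hU⟩
  · intro h
    have h1 : luc t d 2 = 0 := by
      show t * 1 - d * 0 = 0
      rw [h]; ring
    have h2 := Nat.le_of_dvd two_pos ((hU 2).1 h1)
    omega
  · intro h
    rw [h, map_zero, hφ] at hd
    exact mul_ne_zero hz0 (pow_ne_zero _ hz0) hd.symm
  · intro x hx
    have h1 := congrArg (algebraMap F K) hx
    rw [map_add, map_sub, map_mul, map_mul, ht, hd, map_zero] at h1
    have h2 : (algebraMap F K x - z) * (algebraMap F K x - φ z) = 0 := by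
      rw [← h1]; ring
    rcases mul_eq_zero.1 h2 with h3 | h3
    · exact hzF x (sub_eq_zero.1 h3)
    · have h4 := sub_eq_zero.1 h3
      have h5 := hφF x
      rw [h4, hφφ] at h5
      exact hzF x (h4.trans h5.symm)

theorem luc_exists (F : Type) [Field F] [Fintype F] {c w : ℕ} (hc : 3 ≤ c)
    (hcw : c * w = Fintype.card F + 1) :
    ∃ t d : F, t ≠ 0 ∧ d ≠ 0 ∧ (∀ x : F, x * x - t * x + d ≠ 0) ∧
      ∀ m, luc t d m = 0 ↔ c ∣ m := by
  obtain ⟨K, iK, iK2, iA, hK⟩ := ext_exists F
  exact luc_core (K := K) hK hc hcw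

end Pool.Agent.H.MP_0d0865_co.TF
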