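import Pool.Agent.H.MP_0d0865_co.TF.TopL
import Pool.Agent.H.MP_0d0865_co.TF.Climb
import Pool.Agent.H.MP_0d0865_co.TF.ConvL

/-!
# TF/Main: assembly

As `Dec_general` in H/Tc55/Main.lean, with `topL`, `climbL`, `DL.toDec` (helper78).
-/

set_option autoImplicit false

namespace Pool.Agent.H.MP_0d0865_co.TF

open Finset Equiv Pool.Agent.H.Tc26 Pool.Agent.H.Tc55

theorem mainG {lam c w a m : ℕ} (hc : 0 < c) (h4 : 4 ∣ c) (hw : 0 < w)
    (hP : DL lam (fun s : Finset (Fin (c * w)) => s.card = 3) (Multiset.replicate w c))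
    (ℓ : Fin m → ℕ) (h5 : ∀ i, 5 ≤ ℓ i) (hℓ : ∀ i, c ∣ ℓ i) (g : Fin m → Fin w)
    (hg : ∀ j, ∑ i ∈ Finset.univ.filter (fun i => g i = j), ℓ i = c * 2 ^ a) :
    DecomposesL lam 3 (c * w * 2 ^ a) ℓ := by
  have : NeZero (2 ^ a) := ⟨by positivity⟩
  have h8 : ∀ i, 8 ≤ ℓ i := by
    intro i
    obtain ⟨y, hy⟩ := h4.trans (hℓ i)
    have := h5 i
    omega
  have hcl : ∀ i, c * (ℓ i / c) = ℓ i := fun i => Nat.mul_div_cancel' (hℓ i)
  obtain ⟨lm, hlmdef⟩ : ∃ lm : Fin w → Multiset ℕ, lm = fun j =>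
    (Finset.univ.filter fun i => g i = j).val.map fun i => ℓ i / c := ⟨_, rfl⟩
  have hlm : ∀ j, (lm j).sum = 2 ^ a := by
    intro j
    have h1 : c * (lm j).sum = c * 2 ^ a := by
      rw [← hg j, hlmdef]
      change c * ∑ i ∈ Finset.univ.filter (fun i => g i = j), ℓ i / c = _
      rw [Finset.mul_sum]
      exact Finset.sum_congr rfl fun i _ => hcl i
    exact Nat.eq_of_mul_eq_mul_left hc h1
  have hpos : ∀ j, ∀ x ∈ lm j, 0 < x := by
    intro j x hx
    rw [hlmdef] at hx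
    obtain ⟨i, -, rfl⟩ := Multiset.mem_map.1 hx
    have h1 := hcl i
    have h2 := h8 i
    rcases Nat.eq_zero_or_pos (ℓ i / c) with h3 | h3
    · rw [h3] at h1
      omega
    · exact h3
  have htop := topL h4 hc hP lm hlm hpos
  have hfam : ∑ j, (lm j).map (c * ·) = fam ℓ := by
    rw [← Main_fiber ℓ g]
    refine Finset.sum_congr rfl fun j _ => ?_
    rw [hlmdef]
    simp only
    rw [Multiset.map_map]
    refine Multiset.map_congr rfl fun i _ => ?_
    exact hcl i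
  rw [hfam] at htop
  have heven : ∀ x ∈ fam ℓ, 2 ∣ x ∧ 8 ≤ x := by
    intro x hx
    obtain ⟨i, -, rfl⟩ := Multiset.mem_map.1 hx
    exact ⟨((by norm_num : 2 ∣ 4).trans h4).trans (hℓ i), h8 i⟩
  have h4' : ∀ x ∈ fam ℓ, 4 ∣ x := by
    intro x hx
    obtain ⟨i, -, rfl⟩ := Multiset.mem_map.1 hx
    exact h4.trans (hℓ i)
  obtain ⟨U, hUdef⟩ : ∃ U : Multiset ℕ, U = (fam ℓ).map (· / 2) := ⟨_, rfl⟩
  have hU2 : U.map (2 * ·) = fam ℓ := by
    rw [hUdef, Multiset.map_map]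
    conv_rhs => rw [← Multiset.map_id (fam ℓ)]
    refine Multiset.map_congr rfl fun x hx => ?_
    exact Nat.mul_div_cancel' (heven x hx).1
  have hU : Bip U := by
    intro u hu
    rw [hUdef] at hu
    obtain ⟨x, hx, rfl⟩ := Multiset.mem_map.1 hu
    obtain ⟨y, rfl⟩ := h4' x hx
    have := (heven _ hx).2
    refine ⟨⟨y, by omega⟩, by omega⟩
  have hUs : U.sum * 2 = Fintype.card (Fin (c * w)) * 2 ^ a := by
    have h1 : (U.map (2 * ·)).sum = 2 * U.sum := by
      rw [Multiset.sum_map_mul_left, Multiset.map_id']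
    rw [mul_comm U.sum, ← h1, hU2, Fintype.card_fin]
    change ∑ i, ℓ i = _
    rw [← Finset.sum_fiberwise Finset.univ g ℓ, Finset.sum_congr rfl fun j _ => hg j,
      Finset.sum_const, Finset.card_univ, Fintype.card_fin, smul_eq_mul]
    ring
  rw [← hU2] at htop
  have h0 : 0 < Fintype.card (Fin (c * w)) := by
    rw [Fintype.card_fin]
    positivity
  have h1 := climbL a (by rw [Fintype.card_fin]; exact Dvd.dvd.mul_right h4 w) h0 hU hUs htop
    (Fin (c * w * 2 ^ a)) (by rw [Fintype.card_fin, Fintype.card_fin])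
  rw [hU2] at h1
  exact h1.toDec

end Pool.Agent.H.MP_0d0865_co.TF
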