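import Pool.Agent.H.MP_0d0865_co.TF.Luc

/-!
# TF/Pt: the points and the permutations

`V = F × F`, points: `Pt F`, the lines of `V` as sets: here a point is `ℙ F (F × F)` (Mathlib `Projectivization`).
`Cl t d`: the endomorphisms `A` with `A² = t A - d`; `A` is injective (`A (t - A) = d ≠ 0`), `pm A` is the permutation
of the points (`Projectivization.map`, inverse by `t - A`: `A ∘ (t - A) = d`, scalar). `opp A = t - A`.
`pm_pow`: `A^(m+1) = U_(m+1) A - d U_m`; if `(pm A)^m` fixes the line of `v ≠ 0`, then `U_m A v` is a multiple of `v`; `A` has no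
eigenvector (`x² - t x + d ≠ 0`), so `U_m = 0`. `opp_ne` needs `t ≠ 0` (imperfect fields of characteristic 2).
-/

set_option autoImplicit false

namespace Pool.Agent.H.MP_0d0865_co.TF

open Equiv
open scoped LinearAlgebra.Projectivization

variable {F : Type} [Field F]

/-- the points of the projective line -/
abbrev Pt (F : Type) [Field F] : Type := ℙ F (F × F)

/-- the endomorphisms with trace `t` and determinant `d` -/
def Cl (t d : F) : Type := {A : (F × F) →ₗ[F] (F × F) // ∀ v, A (A v) = t • A v - d • v}

theorem Cl.inj {t d : F} (hd : d ≠ 0) (A : Cl t d) : Function.Injective A.1 := by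
  intro u v h
  have h1 := A.2 u
  have h2 := A.2 v
  rw [h] at h1
  have h3 : d • u = d • v := by
    have h4 := h1.symm.trans h2
    exact sub_right_injective h4
  exact smul_right_injective (F × F) hd h3

/-- the other element with the same windows -/
def opp {t d : F} (A : Cl t d) : Cl t d :=
  ⟨t • LinearMap.id - A.1, by
    intro v
    have h := A.2 v
    simp only [LinearMap.sub_apply, LinearMap.smul_apply, LinearMap.id_apply, map_sub, map_smul, h]
    module⟩

private theorem Pt_opp_apply {t d : F} (A : Cl t d) (v : F × F) : (opp A).1 v = t • v - A.1 v := rfl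

theorem opp_opp {t d : F} (A : Cl t d) : opp (opp A) = A := by
  apply Subtype.ext
  apply LinearMap.ext
  intro v
  rw [Pt_opp_apply, Pt_opp_apply, sub_sub_cancel]

private theorem Pt_noeig {t d : F} (hx : ∀ x : F, x * x - t * x + d ≠ 0) (A : Cl t d) (v : F × F)
    (hv : v ≠ 0) (x : F) : A.1 v ≠ x • v := by
  intro h
  have h1 := A.2 v
  rw [h, map_smul, h] at h1
  have h2 : (x * x - t * x + d) • v = 0 := by
    have h3 : x • x • v - (t • x • v - d • v) = 0 := sub_eq_zero.mpr h1
    rw [← h3]
    module
  rcases smul_eq_zero.mp h2 with h3 | h3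
  · exact hx x h3
  · exact hv h3

theorem opp_ne {t d : F} (ht : t ≠ 0) (_hd : d ≠ 0) (hx : ∀ x : F, x * x - t * x + d ≠ 0) (A : Cl t d) :
    opp A ≠ A := by
  intro h
  have hv : ((1, 0) : F × F) ≠ 0 := by
    intro h0
    exact one_ne_zero (congrArg Prod.fst h0)
  have h1 : t • ((1, 0) : F × F) - A.1 (1, 0) = A.1 (1, 0) := by
    have h2 := Pt_opp_apply A (1, 0)
    rw [h] at h2
    exact h2.symm
  have h3 : t • ((1, 0) : F × F) = (2 : F) • A.1 (1, 0) := by
    rw [two_smul]
    exact sub_eq_iff_eq_add.mp h1
  by_cases h2 : (2 : F) = 0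
  · rw [h2, zero_smul] at h3
    rcases smul_eq_zero.mp h3 with h4 | h4
    · exact ht h4
    · exact hv h4
  · apply Pt_noeig hx A (1, 0) hv ((2 : F)⁻¹ * t)
    rw [mul_smul, h3, smul_smul, inv_mul_cancel₀ h2, one_smul]

private theorem Pt_mk_smul {d : F} (hd : d ≠ 0) (u v : F × F) (hu : u ≠ 0) (hv : v ≠ 0)
    (h : u = d • v) : Projectivization.mk F u hu = Projectivization.mk F v hv := by
  rw [Projectivization.mk_eq_mk_iff]
  exact ⟨Units.mk0 d hd, h.symm⟩

/-- the permutation of the points -/
noncomputable def pm {t d : F} (hd : d ≠ 0) (A : Cl t d) : Perm (Pt F) where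
  toFun := Projectivization.map A.1 (A.inj hd)
  invFun := Projectivization.map (opp A).1 ((opp A).inj hd)
  left_inv := by
    intro P
    induction P using Projectivization.ind with
    | h v hv =>
      rw [Projectivization.map_mk, Projectivization.map_mk]
      apply Pt_mk_smul hd
      rw [Pt_opp_apply, A.2 v]
      module
  right_inv := by
    intro P
    induction P using Projectivization.ind with
    | h v hv =>
      rw [Projectivization.map_mk, Projectivization.map_mk]
      apply Pt_mk_smul hd
      rw [Pt_opp_apply, map_sub, map_smul, A.2 v]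
      module

theorem pm_mk {t d : F} (hd : d ≠ 0) (A : Cl t d) (v : F × F) (hv : v ≠ 0) :
    pm hd A (Projectivization.mk F v hv) =
      Projectivization.mk F (A.1 v) ((map_ne_zero_iff A.1 (A.inj hd)).2 hv) := by
  exact Projectivization.map_mk A.1 (A.inj hd) v hv

theorem pm_opp {t d : F} (hd : d ≠ 0) (A : Cl t d) : pm hd (opp A) = (pm hd A)⁻¹ := by
  apply Equiv.ext
  intro P
  rfl

private theorem Pt_it_ne {t d : F} (hd : d ≠ 0) (A : Cl t d) (v : F × F) (hv : v ≠ 0) (m : ℕ) :
    (A.1)^[m] v ≠ 0 := by
  induction m with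
  | zero => exact hv
  | succ m ih =>
    rw [Function.iterate_succ_apply']
    exact (map_ne_zero_iff A.1 (A.inj hd)).2 ih

private theorem Pt_pow_mk {t d : F} (hd : d ≠ 0) (A : Cl t d) (v : F × F) (hv : v ≠ 0) (m : ℕ) :
    (pm hd A ^ m) (Projectivization.mk F v hv) =
      Projectivization.mk F ((A.1)^[m] v) (Pt_it_ne hd A v hv m) := by
  induction m with
  | zero => rfl
  | succ m ih =>
    rw [pow_succ', Perm.mul_apply, ih, pm_mk]
    congr 1
    exact (Function.iterate_succ_apply' _ _ _).symm

private theorem Pt_it {t d : F} (A : Cl t d) (v : F × F) (m : ℕ) :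
    (A.1)^[m + 1] v = luc t d (m + 1) • A.1 v - (d * luc t d m) • v := by
  induction m with
  | zero =>
    have h0 : luc t d 0 = 0 := rfl
    have h1 : luc t d 1 = 1 := rfl
    rw [zero_add, h0, h1, Function.iterate_one]
    module
  | succ m ih =>
    have h2 : luc t d (m + 1 + 1) = t * luc t d (m + 1) - d * luc t d m := rfl
    rw [Function.iterate_succ_apply', ih, map_sub, map_smul, map_smul, A.2 v, h2]
    module

theorem pm_pow {t d : F} (hd : d ≠ 0) (hx : ∀ x : F, x * x - t * x + d ≠ 0) (A : Cl t d)
    (P : Pt F) (m : ℕ) : (pm hd A ^ m) P = P ↔ luc t d m = 0 := by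
  rcases m with _ | m
  · exact ⟨fun _ => rfl, fun _ => rfl⟩
  induction P using Projectivization.ind with
  | h v hv =>
    rw [Pt_pow_mk, Projectivization.mk_eq_mk_iff]
    constructor
    · rintro ⟨a, ha⟩
      by_contra hU
      rw [Pt_it] at ha
      apply Pt_noeig hx A v hv ((luc t d (m + 1))⁻¹ * ((a : F) + d * luc t d m))
      have h1 : luc t d (m + 1) • A.1 v = ((a : F) + d * luc t d m) • v := by
        rw [add_smul, ← Units.smul_def, ha]
        abel
      rw [mul_smul, ← h1, smul_smul, inv_mul_cancel₀ hU, one_smul]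
    · intro hU
      have h1 := Pt_it A v m
      have h2 := Pt_it_ne hd A v hv (m + 1)
      rw [hU, zero_smul, zero_sub, ← neg_smul] at h1
      have h3 : -(d * luc t d m) ≠ 0 := by
        intro h0
        rw [h0, zero_smul] at h1
        exact h2 h1
      exact ⟨Units.mk0 _ h3, h1.symm⟩

end Pool.Agent.H.MP_0d0865_co.TF
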