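import Pool.Agent.H.MP_0d0865_co.TF.Pt

/-!
# TF/Sharp: sharply transitive

`P, Q, R` distinct points, `P = [a]`, `Q = [b]`, `a, b` a basis, `R = [α a + β b]` with `α, β ≠ 0`. `A a = μ b` (`μ ≠ 0`), `A (A a) = t A a - d a = t μ b - d a`,
so `A Q = [A (μ b)] = [t μ b - d a]`, and this is `R` iff `t μ α = - d β`, `μ = - d β / (t α)`: so `A` is determined by `A a = μ b`,
`A b = t b - (d / μ) a`, and this `A` satisfies `A² = t A - d` (check it on `a` and `b`).
-/

set_option autoImplicit false

namespace Pool.Agent.H.MP_0d0865_co.TF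

open Equiv
open scoped LinearAlgebra.Projectivization

variable {F : Type} [Field F]

private theorem Sharp_basis {a b : F × F} (h : LinearIndependent F ![a, b]) :
    (∀ c : F × F, ∃ α β : F, c = α • a + β • b) ∧
    ∀ u v : F × F, ∃ A : (F × F) →ₗ[F] (F × F), A a = u ∧ A b = v := by
  classical
  have hcard : Fintype.card (Fin 2) = Module.finrank F (F × F) := by simp
  let B := basisOfLinearIndependentOfCardEqFinrank h hcard
  have hB : (B : Fin 2 → F × F) = ![a, b] := coe_basisOfLinearIndependentOfCardEqFinrank h hcard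
  have hB0 : B 0 = a := by
    rw [hB]
    rfl
  have hB1 : B 1 = b := by
    rw [hB]
    rfl
  refine ⟨fun c => ⟨B.repr c 0, B.repr c 1, ?_⟩, fun u v => ⟨B.constr F ![u, v], ?_, ?_⟩⟩
  · have h1 := B.sum_repr c
    rw [Fin.sum_univ_two, hB0, hB1] at h1
    exact h1.symm
  · rw [← hB0, Module.Basis.constr_basis]
    rfl
  · rw [← hB1, Module.Basis.constr_basis]
    rfl

theorem sharp {t d : F} (ht : t ≠ 0) (hd : d ≠ 0) (P Q R : Pt F) (h1 : P ≠ Q) (h2 : P ≠ R)
    (h3 : Q ≠ R) : ∃! A : Cl t d, pm hd A P = Q ∧ pm hd A Q = R := by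
  obtain ⟨a, ha, rfl⟩ : ∃ a, ∃ ha : a ≠ 0, P = Projectivization.mk F a ha :=
    ⟨P.rep, P.rep_nonzero, P.mk_rep.symm⟩
  obtain ⟨b, hb, rfl⟩ : ∃ a, ∃ ha : a ≠ 0, Q = Projectivization.mk F a ha :=
    ⟨Q.rep, Q.rep_nonzero, Q.mk_rep.symm⟩
  obtain ⟨c, hc, rfl⟩ : ∃ a, ∃ ha : a ≠ 0, R = Projectivization.mk F a ha :=
    ⟨R.rep, R.rep_nonzero, R.mk_rep.symm⟩
  have hli : LinearIndependent F ![a, b] := by
    refine (LinearIndependent.pair_iff' ha).2 fun s hs => h1 ?_
    exact ((Projectivization.mk_eq_mk_iff' F b a hb ha).2 ⟨s, hs⟩).symm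
  have hli2 := LinearIndependent.pair_iff.1 hli
  obtain ⟨hspan, hmap⟩ := Sharp_basis hli
  obtain ⟨α, β, hcab⟩ := hspan c
  have hα : α ≠ 0 := by
    rintro rfl
    apply h3
    refine ((Projectivization.mk_eq_mk_iff' F c b hc hb).2 ⟨β, ?_⟩).symm
    rw [hcab]
    module
  have hβ : β ≠ 0 := by
    rintro rfl
    apply h2
    refine ((Projectivization.mk_eq_mk_iff' F c a hc ha).2 ⟨α, ?_⟩).symm
    rw [hcab]
    module
  have hchar : ∀ A : Cl t d, (pm hd A (Projectivization.mk F a ha) = Projectivization.mk F b hb ∧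
      pm hd A (Projectivization.mk F b hb) = Projectivization.mk F c hc) →
      A.1 a = (-(d * β) / (t * α)) • b ∧ A.1 b = (t / β) • c := by
    rintro A ⟨hA1, hA2⟩
    rw [pm_mk] at hA1 hA2
    obtain ⟨μ, hμ⟩ := (Projectivization.mk_eq_mk_iff' F _ _ _ _).1 hA1
    obtain ⟨ν, hν⟩ := (Projectivization.mk_eq_mk_iff' F _ _ _ _).1 hA2
    have h4 := A.2 a
    rw [← hμ, map_smul, ← hν, hcab] at h4
    have h5 : (μ * ν * α + d) • a + (μ * ν * β - t * μ) • b = 0 := by
      have h6 : (μ * ν * α + d) • a + (μ * ν * β - t * μ) • b =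
          μ • ν • (α • a + β • b) - (t • μ • b - d • a) := by module
      rw [h6, h4, sub_self]
    obtain ⟨h6, h7⟩ := hli2 _ _ h5
    have hμ0 : μ ≠ 0 := by
      rintro rfl
      apply hd
      simpa using h6
    have h8 : ν * β = t := by
      have h9 : μ * (ν * β - t) = 0 := by linear_combination h7
      rcases mul_eq_zero.1 h9 with h9 | h9
      · exact absurd h9 hμ0
      · linear_combination h9
    have h10 : ν = t / β := by
      rw [eq_div_iff hβ]
      exact h8
    have h11 : μ = -(d * β) / (t * α) := by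
      rw [eq_div_iff (mul_ne_zero ht hα)]
      linear_combination β * h6 - μ * α * h8
    rw [← h10, ← h11]
    exact ⟨hμ.symm, hν.symm⟩
  obtain ⟨A, hA1, hA2⟩ := hmap ((-(d * β) / (t * α)) • b) ((t / β) • c)
  have hAA : ∀ v, A (A v) = t • A v - d • v := by
    have hAa : A (A a) = t • A a - d • a := by
      rw [hA1, map_smul, hA2, hcab]
      have h4 : (-(d * β) / (t * α)) • (t / β) • (α • a + β • b) =
          (-(d * β) / (t * α) * (t / β) * α) • a + (-(d * β) / (t * α) * (t / β) * β) • b := by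
        module
      have h5 : -(d * β) / (t * α) * (t / β) * α = -d := by
        field_simp
      have h6 : -(d * β) / (t * α) * (t / β) * β = t * (-(d * β) / (t * α)) := by
        field_simp
      rw [h4, h5, h6]
      module
    have hAb : A (A b) = t • A b - d • b := by
      have h4 : A c = α • A a + β • A b := by
        rw [hcab, map_add, map_smul, map_smul]
      have h5 : A (A b) = (t / β) • A c := by
        conv_lhs => rw [hA2]
        rw [map_smul]
      rw [h5, h4, hA1]
      have h6 : (t / β) • (α • (-(d * β) / (t * α)) • b + β • A b) =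
          (t / β * α * (-(d * β) / (t * α))) • b + (t / β * β) • A b := by
        module
      have h7 : t / β * α * (-(d * β) / (t * α)) = -d := by
        field_simp
      have h8 : t / β * β = t := by
        field_simp
      rw [h6, h7, h8]
      module
    intro v
    obtain ⟨x, y, rfl⟩ := hspan v
    rw [map_add, map_smul, map_smul, map_add, map_smul, map_smul, hAa, hAb]
    module
  let AA : Cl t d := ⟨A, hAA⟩
  refine ⟨AA, ⟨?_, ?_⟩, ?_⟩
  · refine (pm_mk hd AA a ha).trans ?_
    exact (Projectivization.mk_eq_mk_iff' F _ _ _ _).2 ⟨_, hA1.symm⟩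
  · refine (pm_mk hd AA b hb).trans ?_
    exact (Projectivization.mk_eq_mk_iff' F _ _ _ _).2 ⟨_, hA2.symm⟩
  · intro A' hA'
    obtain ⟨h4, h5⟩ := hchar A' hA'
    apply Subtype.ext
    apply LinearMap.ext
    intro v
    obtain ⟨x, y, rfl⟩ := hspan v
    show A'.1 (x • a + y • b) = A (x • a + y • b)
    rw [map_add, map_smul, map_smul, map_add, map_smul, map_smul, h4, h5, hA1, hA2]

end Pool.Agent.H.MP_0d0865_co.TF
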