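import Pool.Agent.H.MP_0d0865_co.TF.Bas

/-!
# TF/TopL: lifts of a decomposition with multiplicity

As `top` in H/Tc55/Top.lean (last theorem there; copy its proof, all its lemmas are public): the family is
`J × (ZMod t × ZMod t)`, `fun q => topS (r q.1) (topP (e q.1) θ q.2.1 q.2.2)`. For a fixed `s` with `HS`, the map
`((j, α, β), (x, a)) ↦ (j, x)` is a bijection from the pairs with window `s` to the pairs `(j, x)` of the base with window
`s.image Prod.fst`: the proof of the existence part in `top` starts with ANY `(j, x)` with `hx : s.image Prod.fst = {..}` and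
gives the lift, the uniqueness part shows that `α, β, a` are unique for this `(j, x)`. (`Nat.card_congr (Equiv.ofBijective _ _)`.)
-/

set_option autoImplicit false

namespace Pool.Agent.H.MP_0d0865_co.TF

open Finset Equiv Pool.Agent.H.Tc26 Pool.Agent.H.Tc55

variable {lam : ℕ}

private theorem topL_key {V : Type} [Fintype V] [DecidableEq V] {c w t : ℕ} (h4 : 4 ∣ c)
    (hc : 0 < c) [NeZero t] (p : Perm V) (e : Fin w × ZMod c ≃ V)
    (he : ∀ i y, p (e (i, y)) = e (i, y + 1)) (θ : Fin w → Perm (ZMod t))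
    (hne : ∀ x, p x ≠ x ∧ p (p x) ≠ x) (s : Finset (V × ZMod t)) (hs : HS V (ZMod t) s) (x : V)
    (hx : s.image Prod.fst = {x, p x, p (p x)}) :
    ∃! q : (ZMod t × ZMod t) × ZMod t,
      s = {(x, q.2), topS p (topP e θ q.1.1 q.1.2) (x, q.2),
        topS p (topP e θ q.1.1 q.1.2) (topS p (topP e θ q.1.1 q.1.2) (x, q.2))} := by
  obtain ⟨hcard, hinj⟩ := hs
  have hT : ∀ p ∈ s, ∀ q ∈ s, p.1 = q.1 → p = q := fun p hp q hq hpq => hinj hp hq hpq
  obtain ⟨hn1, hn2⟩ := hne x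
  obtain ⟨hn3, -⟩ := hne (p x)
  have hmem : ∀ y, y ∈ s.image Prod.fst → ∃ b, (y, b) ∈ s := by
    intro y hy
    obtain ⟨⟨y', b⟩, hb, rfl⟩ := Finset.mem_image.1 hy
    exact ⟨b, hb⟩
  obtain ⟨a, ha⟩ := hmem x (by rw [hx]; simp)
  obtain ⟨b, hb⟩ := hmem (p x) (by rw [hx]; simp)
  obtain ⟨d, hd⟩ := hmem (p (p x)) (by rw [hx]; simp)
  have hsE : s = {(x, a), (p x, b), (p (p x), d)} := by
    symm
    apply Finset.eq_of_subset_of_card_le
    · intro p hp
      simp only [Finset.mem_insert, Finset.mem_singleton] at hp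
      rcases hp with rfl | rfl | rfl <;> assumption
    · rw [hcard, (top_HS hn1.symm hn2.symm hn3.symm a b d).1]
  obtain ⟨⟨α, β⟩, ⟨hα, hβ⟩, huab⟩ := topSel_ex (e.symm x).2.val
    ((if (e.symm x).2 = -1 then θ (e.symm x).1 else Equiv.refl _).symm b - a)
    ((if (e.symm (p x)).2 = -1 then θ (e.symm (p x)).1 else Equiv.refl _).symm d - b)
  have hmod := top_mod h4 hc p e he x
  have hP1 : topP e θ α β x a = b := (topP_iff _ _ _ _ _ _ _).2 hα
  have hP2 : topP e θ α β (p x) b = d := by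
    rw [topP_iff, topSel_mod hmod]
    exact hβ
  refine ⟨((α, β), a), ?_, ?_⟩
  · simp only [topS_apply, hP1, hP2]
    exact hsE
  · rintro ⟨⟨α', β'⟩, a'⟩ hq
    simp only [topS_apply] at hq
    have ha' : a' = a := by
      have h2 : (x, a') ∈ s := by rw [hq]; simp
      exact congrArg Prod.snd (hT _ h2 _ ha rfl)
    subst ha'
    have hb' : topP e θ α' β' x a' = b := by
      have h2 : (p x, topP e θ α' β' x a') ∈ s := by rw [hq]; simp
      exact congrArg Prod.snd (hT _ h2 _ hb rfl)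
    rw [hb'] at hq
    have hd' : topP e θ α' β' (p x) b = d := by
      have h2 : (p (p x), topP e θ α' β' (p x) b) ∈ s := by rw [hq]; simp
      exact congrArg Prod.snd (hT _ h2 _ hd rfl)
    have h3 := huab (α', β') ⟨(topP_iff _ _ _ _ _ _ _).1 hb', by
      rw [topP_iff, topSel_mod hmod] at hd'
      exact hd'⟩
    simp only [Prod.mk.injEq] at h3
    rw [h3.1, h3.2]

theorem topL {V : Type} [Fintype V] [DecidableEq V] {c w t : ℕ} (h4 : 4 ∣ c) (hc : 0 < c)
    [NeZero t] (h : DL lam (fun s : Finset V => s.card = 3) (Multiset.replicate w c))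
    (M : Fin w → Multiset ℕ) (hl : ∀ g, (M g).sum = t) (hpos : ∀ g, ∀ x ∈ M g, 0 < x) :
    DL lam (HS V (ZMod t)) (∑ g, (M g).map (c * ·)) := by
  obtain ⟨J, _, r, hr, -, hc3⟩ := h
  have hc4 : 4 ≤ c := Nat.le_of_dvd hc h4
  have hfam : fam (fun _ : Fin w => c) = Multiset.replicate w c := by
    simp [fam]
  choose e0 he0 using fun j => (hr j).exists_equiv (fun _ : Fin w => c) hfam
  let e : J → (Fin w × ZMod c ≃ V) := fun j =>
    (Equiv.sigmaEquivProd (Fin w) (ZMod c)).symm.trans (e0 j)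
  have he : ∀ j i y, r j (e j (i, y)) = e j (i, y + 1) := fun j i y => he0 j i y
  choose θ hθ using fun g => top_theta (M g) (hl g) (hpos g)
  have hne : ∀ j x, r j x ≠ x ∧ r j (r j x) ≠ x := by
    intro j x
    refine (hr j).ne ?_ x
    intro m hm
    rw [Multiset.eq_of_mem_replicate hm]
    omega
  refine ⟨J × (ZMod t × ZMod t), inferInstance,
    fun q => topS (r q.1) (topP (e q.1) θ q.2.1 q.2.2),
    fun q => top_type h4 hc _ _ (he q.1) θ _ _ M hθ, ?_, ?_⟩
  · rintro ⟨j, α, β⟩ ⟨x, s⟩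
    simp only [topS_apply]
    obtain ⟨hn1, hn2⟩ := hne j x
    obtain ⟨hn3, -⟩ := hne j (r j x)
    exact top_HS hn1.symm hn2.symm hn3.symm _ _ _
  · intro s hs
    have him : (s.image Prod.fst).card = 3 := by
      rw [Finset.card_image_of_injOn hs.2, hs.1]
    have hkey := fun j x => topL_key h4 hc (r j) (e j) (he j) θ (hne j) s hs x
    rw [← hc3 _ him]
    have hproj : ∀ (q : (J × (ZMod t × ZMod t)) × (V × ZMod t)),
        s = {q.2, topS (r q.1.1) (topP (e q.1.1) θ q.1.2.1 q.1.2.2) q.2,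
          topS (r q.1.1) (topP (e q.1.1) θ q.1.2.1 q.1.2.2)
            (topS (r q.1.1) (topP (e q.1.1) θ q.1.2.1 q.1.2.2) q.2)} →
        s.image Prod.fst = {q.2.1, r q.1.1 q.2.1, r q.1.1 (r q.1.1 q.2.1)} := by
      rintro ⟨⟨j, α, β⟩, x, a⟩ hq
      simp only [topS_apply] at hq
      rw [hq]
      simp [Finset.image_insert]
    let f : {q : (J × (ZMod t × ZMod t)) × (V × ZMod t) //
        s = {q.2, topS (r q.1.1) (topP (e q.1.1) θ q.1.2.1 q.1.2.2) q.2,
          topS (r q.1.1) (topP (e q.1.1) θ q.1.2.1 q.1.2.2)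
            (topS (r q.1.1) (topP (e q.1.1) θ q.1.2.1 q.1.2.2) q.2)}} →
        {q : J × V // s.image Prod.fst = {q.2, r q.1 q.2, r q.1 (r q.1 q.2)}} :=
      fun q => ⟨(q.1.1.1, q.1.2.1), hproj q.1 q.2⟩
    refine Nat.card_congr (Equiv.ofBijective f ⟨?_, ?_⟩)
    · rintro ⟨⟨⟨j, αβ⟩, x, a⟩, hq⟩ ⟨⟨⟨j', αβ'⟩, x', a'⟩, hq'⟩ hqq
      have h1 : (j, x) = (j', x') := congrArg Subtype.val hqq
      simp only [Prod.mk.injEq] at h1
      obtain ⟨rfl, rfl⟩ := h1
      obtain ⟨q0, -, hu⟩ := hkey j x (hproj ((j, αβ), (x, a)) hq)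
      have h2 := (hu (αβ, a) hq).trans (hu (αβ', a') hq').symm
      simp only [Prod.mk.injEq] at h2
      obtain ⟨rfl, rfl⟩ := h2
      rfl
    · rintro ⟨⟨j, x⟩, hx⟩
      obtain ⟨⟨αβ, a⟩, hq, -⟩ := hkey j x hx
      exact ⟨⟨((j, αβ), (x, a)), hq⟩, rfl⟩

end Pool.Agent.H.MP_0d0865_co.TF
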